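import Mathlib
import Pool.Agent.Helper617.RM.Defs
import Pool.Agent.H362Z.PRT.G

/-!
An `ω`-model of `RCA₀` and of the packed Ramsey theorem for pairs in which weak König's lemma
fails. The model is built by a cohesive set forcing and by the forcing of Liu, both run with the
partition regular largeness notion given by the homogeneous blocks of the instance.
-/

set_option autoImplicit false

namespace Pool.Agent.Results.MP_9d76da_lc.PackedWithoutWKL

open Pool.Agent.Helper617.RM

/-- The `ω`-structure with the standard natural numbers whose set variables range over `I`. -/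
def omegaModel (I : Set (Set ℕ)) : L2Structure.{0} :=
  ⟨ℕ, 0, 1, fun a b => a + b, fun a b => a * b, fun a b => a < b, I⟩

/-- `w → (m)²_k`: every colouring of the pairs `x < y` of a set of `w` numbers by `k` colours is
constant on the pairs of some subset with `m` elements. -/
def Arrow (w m k : ℕ) : Prop :=
  ∀ X : Finset ℕ, X.card = w → ∀ g : ℕ → ℕ → Fin k, ∃ H ⊆ X, H.card = m ∧
    ∃ c, ∀ x ∈ H, ∀ y ∈ H, x < y → g x y = c

/-- `H` is packed for `φ`: `|H ∩ {1, …, w}| ≥ φ w` for infinitely many `w`. -/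
def Packed (φ : ℕ → ℕ) (H : Set ℕ) : Prop := {w | φ w ≤ (H ∩ Set.Icc 1 w).ncard}.Infinite

/-- `H` is semi-homogeneous for `f`: the pairs of `H` receive at most two colours. -/
def SemiHom {k : ℕ} (f : ℕ → ℕ → Fin k) (H : Set ℕ) : Prop :=
  {c | ∃ x ∈ H, ∃ y ∈ H, x < y ∧ f x y = c}.ncard ≤ 2

/-- `PRT²_k` holds in the `ω`-structure given by `I`. Functions are coded by their graphs; the
colour of the pair `x < y` is `f x y`. -/
def PRT2 (k : ℕ) (I : Set (Set ℕ)) : Prop :=
  ∀ φ : ℕ → ℕ, {n | ∃ w, n = Nat.pair w (φ w)} ∈ I → (∀ w, Arrow w (φ w) (k + 1)) →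
    ∀ f : ℕ → ℕ → Fin k, {n | ∃ x y, x < y ∧ n = Nat.pair (Nat.pair x y) (f x y)} ∈ I →
      ∃ H ∈ I, Packed φ H ∧ SemiHom f H

/-- `WKL` holds in the `ω`-structure given by `I`: every infinite binary tree coded in `I` has an
infinite path in `I`. -/
def WKL (I : Set (Set ℕ)) : Prop :=
  ∀ T : Set (List Bool), Encodable.encode '' T ∈ I → (∀ σ τ, σ <+: τ → τ ∈ T → σ ∈ T) →
    T.Infinite → ∃ p : ℕ → Bool, {i | p i = true} ∈ I ∧ ∀ n, (List.range n).map p ∈ T

open Pool.Agent.H362Z.PRT in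
/-- There is an `ω`-model of `RCA₀` in which `PRT²_k` holds for every `k` (in particular
`PRT²₃`) and `WKL` fails. -/
theorem result :
    ∃ I : Set (Set ℕ), IsModelRCA0 (omegaModel I) ∧ (∀ k, PRT2 k I) ∧ ¬ WKL I := by
  obtain ⟨N, hN, hs⟩ := exists_final
  refine ⟨sets N, isModel N, fun k φ hφ harr f hf => ?_, fun h => ?_⟩
  · have h1 : InM N φ :=
      (hφ.1.comp (f := fun x : ℕ × ℕ => Nat.pair x.1 x.2) (by fun_prop)).of_iff fun x => by
        simp only [Set.mem_ofPred_eq, Nat.pair_eq_pair]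
        exact ⟨fun ⟨w, h1, h2⟩ => by rw [h1, h2], fun h => ⟨_, rfl, h.symm⟩⟩
    let F : ℕ × ℕ → ℕ := fun x => if x.1 < x.2 then f x.1 x.2 else 0
    have h2 : InM N F := by
      have h3 : CE N fun x : (ℕ × ℕ) × ℕ =>
          Nat.pair (Nat.pair x.1.1 x.1.2) x.2 ∈
            {n | ∃ x y, x < y ∧ n = Nat.pair (Nat.pair x y) (f x y)} ∨
          (x.1.2 ≤ x.1.1 ∧ x.2 = 0) :=
        (hf.1.comp (f := fun x : (ℕ × ℕ) × ℕ => Nat.pair (Nat.pair x.1.1 x.1.2) x.2)
          (by fun_prop)).or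
          ((CE.le (by fun_prop) (by fun_prop)).and (CE.eq (by fun_prop) (by fun_prop)))
      refine h3.of_iff fun x => ?_
      obtain ⟨⟨x, y⟩, v⟩ := x
      simp only [Set.mem_ofPred_eq, Nat.pair_eq_pair, F]
      constructor
      · rintro (⟨a, b, h4, ⟨rfl, rfl⟩, rfl⟩ | ⟨h4, rfl⟩)
        · exact if_pos h4
        · exact if_neg (not_lt.2 h4)
      · intro h
        by_cases h4 : x < y
        · exact Or.inl ⟨x, y, h4, ⟨rfl, rfl⟩, by rw [← h, if_pos h4]⟩
        · exact Or.inr ⟨not_lt.1 h4, by rw [← h, if_neg h4]⟩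
    obtain ⟨H, h3, h4, c, v, h5⟩ := hs k F φ h2 h1
      (fun x => by
        have := (f x.1 x.2).2
        simp only [F]
        split_ifs <;> omega)
      (fun w g hg => by
        obtain ⟨H, h3, h4, c, h5⟩ := harr w (Finset.Icc 1 w) (by simp) fun x y => ⟨g x y, hg x y⟩
        exact ⟨H, h3, h4, c, fun x hx y hy hxy => congrArg Fin.val (h5 x hx y hy hxy)⟩)
    refine ⟨H, h3, h4, ?_⟩
    have h6 : ({c, v} : Set ℕ).ncard ≤ 2 := (Set.ncard_insert_le _ _).trans (by simp)
    refine le_trans (Set.ncard_le_ncard_of_injOn Fin.val ?_ Fin.val_injective.injOn) h6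
    rintro _ ⟨x, hx, y, hy, hxy, rfl⟩
    have := h5 x hx y hy hxy
    simp only [F, if_pos hxy] at this
    exact this
  · obtain ⟨p, h1, h2⟩ := h tree (dec_tree N).image (fun _ _ => tree_prefix) tree_infinite
    obtain ⟨n, hn⟩ := no_path hN h1
    exact hn (h2 n)

end Pool.Agent.Results.MP_9d76da_lc.PackedWithoutWKL
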